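import Pool.Agent.MP_c69980_ag.H43.Spec7

/-!
Boundedness implies finiteness of pointed maps.
-/

set_option autoImplicit false

namespace Pool.Agent.MP_c69980_ag.H43

open MvPolynomial H60 Finset Pool.Agent.MP_f3836a_nt.PK

lemma a2_scale {n M : ℕ} {H : MvPolynomial (Fin n ⊕ Fin M) ℂ} {d e : ℕ} (h : BiH H d e)
    {A : Type} [CommRing A] [Algebra ℂ A] (z : Fin n → A) (u : Fin M → A) (l : A) :
    aeval (Sum.elim z (l • u)) H = l ^ e * aeval (Sum.elim z u) H := by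
  rw [aeval_def, eval₂_eq', aeval_def, eval₂_eq', mul_sum]
  refine sum_congr rfl fun m hm => ?_
  have h1 := h (mem_support_iff.1 hm)
  rw [Finsupp.weight_apply, Finsupp.sum_fintype _ _ (by simp), Fintype.sum_sum_type] at h1
  have h3 : ∑ i, m (Sum.inr i) = e := by simpa [Prod.snd_sum] using congrArg Prod.snd h1
  simp only [Fintype.prod_sum_type, Sum.elim_inl, Sum.elim_inr, Pi.smul_apply, smul_eq_mul,
    mul_pow, prod_mul_distrib, prod_pow_eq_pow_sum, h3]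
  ring

variable {L : Type} [Field L] [Algebra ℂ L]

lemma a2_uni (h : FFd L) {N : ℕ} {P : Pl L} {y : Fin N → L} {x x' : PS N} (a : Red P y x)
    (b : Red P y x') : x = x' := by
  obtain ⟨c, c1, c2, rfl⟩ := a
  obtain ⟨c', d1, d2, rfl⟩ := b
  obtain ⟨i, hi⟩ := Function.ne_iff.1 c2
  obtain ⟨χ, e, -⟩ := h.a.hom P
  have h1 : c * y i ∉ P.V.nonunits := fun q =>
    hi ((h.a.val P _ (c1 i) 0).1 ((h.a.zero P _).2 (by simpa using q)))
  rw [ValuationSubring.mem_nonunits_iff_or, not_or, not_not] at h1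
  have h2 : c' * y i * (c * y i)⁻¹ ∈ P.V := P.V.mul_mem _ _ (d1 i) h1.2
  refine ((Projectivization.mk_eq_mk_iff' _ _ _ _ _).2
    ⟨P.val (c' * y i * (c * y i)⁻¹), _root_.funext fun l => ?_⟩).symm
  have h3 := map_mul χ ⟨_, h2⟩ ⟨_, c1 l⟩
  rw [e, e, e] at h3
  refine h3.symm.trans (congrArg P.val ?_)
  have := left_ne_zero_of_mul h1.1
  have := right_ne_zero_of_mul h1.1
  simp only [MulMemClass.coe_mul]
  field_simp

lemma a2_smul {N : ℕ} {P : Pl L} {y : Fin N → L} {x : PS N} {l : L} (a : Red P (l • y) x) :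
    Red P y x := by
  obtain ⟨c, c1, c2, rfl⟩ := a
  have e : ∀ i, c * (l • y) i = c * l * y i := fun i => by simp [mul_assoc]
  refine ⟨c * l, fun i => e i ▸ c1 i, by simpa only [e] using c2, ?_⟩
  simp only [e]

lemma a2_ex (h : FFd L) {t M : ℕ} {w : Fin M → Option (Fin t)} {P : Pl L} {y : Fin M → L}
    (a : RegG w P y) : ∃ x, Red P y x := by
  obtain ⟨β, h1, h2⟩ := a
  obtain ⟨χ, -, e⟩ := h.a.hom P
  refine ⟨_, (y (β none))⁻¹, fun i => ?_, fun q => ?_, rfl⟩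
  · simpa [co, div_eq_inv_mul] using h2 (i, none)
  · have := congrFun q (β none)
    rw [inv_mul_cancel₀ (h1 none).2, ← map_one (algebraMap ℂ L), e] at this
    exact one_ne_zero this

lemma a2_pig {X : Type*} (q : ℕ → X)
    (h : ∀ φ : ℕ → ℕ, ∃ j j', j ≠ j' ∧ q (φ j) = q (φ j')) :
    ∃ ψ : ℕ → ℕ, Function.Injective ψ ∧ ∀ j, q (ψ j) = q (ψ 0) := by
  by_cases hf : (Set.range q).Finite
  · have := hf.to_subtype
    obtain ⟨x, hx⟩ := Finite.exists_infinite_fiber (Set.rangeFactorization q)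
    let e := Infinite.natEmbedding (Set.rangeFactorization q ⁻¹' {x})
    have k : ∀ j, q (e j) = x := fun j => congrArg Subtype.val (e j).2
    exact ⟨fun j => e j, Subtype.val_injective.comp e.injective, fun j => (k j).trans (k 0).symm⟩
  · let e := Set.Infinite.natEmbedding _ hf
    choose φ hφ using fun j => (e j).2
    obtain ⟨j, j', n, k⟩ := h φ
    rw [hφ, hφ] at k
    exact absurd (e.injective (Subtype.ext k)) n

theorem sA2 (h1 : SRedC) (h2 : SCv1) (h3 : SHtBd) (h4 : SRelK) (h5 : SPull) (h6 : SRigF) :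
    SA2 := by
  intro t a M n w Θ PP K _ _ U z u gk mp ⟨Δ, ⟨S, hS, hΔ⟩, hU, hb⟩
  have rk := h4 t a M n w Θ K U z u mp
  obtain ⟨R, e, C₀, hR, hz, cmp⟩ := rk.cmp
  obtain ⟨p, pU, pΔ⟩ := Set.not_subset.1 hU
  rw [hΔ] at pΔ
  simp only [Set.mem_ofPred_eq, not_forall] at pΔ
  obtain ⟨F, FS, hF⟩ := pΔ
  obtain ⟨d₀, hd⟩ := hS F FS
  have zF : aeval z F ≠ 0 := fun q => hF ((mp.gen.1 F d₀ hd).1 q p pU)
  refine ⟨{P | ∀ G ∈ ({F * R} : Set (PR n)), eval P.rep G = 0},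
    ⟨_, fun G hG => ⟨_, hG ▸ hd.mul hR⟩, rfl⟩, fun q => ?_, fun m Y hY y x hx => ?_⟩
  · have := (mp.gen.1 _ _ (hd.mul hR)).2 fun P hP => q hP _ rfl
    rw [map_mul] at this
    exact mul_ne_zero zF hz this
  have hx2 : eval x.rep F ≠ 0 ∧ eval x.rep R ≠ 0 := by
    rw [← mul_ne_zero_iff, ← map_mul]
    exact fun q => hx.2 fun G hG => hG ▸ q
  by_contra hinf
  let E := Set.Infinite.natEmbedding _ hinf
  obtain ⟨r, C, L, _, _, v, ι, c, sm, hc, mor, inj⟩ := h1 n m Y y (fun j => E j) hY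
    (fun j => (E j).2.1) (Subtype.val_injective.comp E.injective)
    fun j j' => (E j).2.2.2.trans (E j').2.2.2.symm
  obtain ⟨pl, cv⟩ := h2 r C L v sm
  obtain ⟨d, hdd⟩ := hb r C L v sm.var sm.gen sm.deg sm.reg
  choose z' hz' using fun j => (cv.mor n _).1 (mor j)
  have ran : ∀ j, Set.range ((E j).1 ∘ ι) ⊆ U := fun j =>
    (Set.range_comp_subset_range _ _).trans (E j).2.2.1
  have fc : ∀ j, ((E j).1 ∘ ι) c = x := fun j => by
    rw [Function.comp_apply, hc]; exact (E j).2.2.2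
  have hb1 : ∀ j, ht (z' j) ≤ n ^ 2 * d := fun j =>
    (h3 r n C L v pl _ _ cv (hz' j)).2.1 d (hdd _ (mor j) (ran j) fun q => by
      have := q ⟨c, fc j⟩
      rw [hΔ] at this
      exact hx2.1 (this F FS))
  have hb2 : ∀ j, aeval (z' j) R ≠ 0 := fun j =>
    ((h3 r n C L v pl _ _ cv (hz' j)).2.2 R e hR).2 ⟨c, by rw [fc j]; exact hx2.2⟩
  choose y' on rel reg using fun j =>
    h5 t a M n w Θ K U z u r C L v pl _ _ mp cv (ran j) (hz' j) ⟨c, c.2⟩
  have y0 : ∀ j, y' j ≠ 0 := fun j q => by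
    obtain ⟨b, -, hb⟩ := (on j).blk none
    exact hb (congrFun q b)
  choose x' hx' using fun j => a2_ex cv.ff (reg j c).1
  have xe : ∀ j, x' j = x' 0 := fun j => by
    obtain ⟨l, hl⟩ := rk.uni x hx.1 _ _ (fc j ▸ (reg j c).2 _ (hx' j))
      (fc 0 ▸ (reg 0 c).2 _ (hx' 0)) (x' 0).rep_nonzero
    rw [← (x' j).mk_rep, ← (x' 0).mk_rep]
    exact (Projectivization.mk_eq_mk_iff' _ _ _ _ _).2 ⟨l, hl.symm⟩
  obtain ⟨ψ, hψ, eq⟩ := a2_pig (fun j => Projectivization.mk L (y' j) (y0 j)) fun φ => by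
    obtain ⟨j, j', ne, l, hl⟩ := h6 t a M w Θ PP L cv.cof.toFinset (pl c) (C₀ * (n ^ 2 * d))
      (fun j => y' (φ j)) (x' 0) gk cv.ff (by simp) (fun j => on _)
      (fun j P hP => by
        obtain ⟨c', rfl⟩ : P ∈ Set.range pl := by simpa using hP
        exact (reg _ c').1)
      (fun j => ((cmp L cv.ff _ (y0 _)).1 _ (rel _) (hb2 _)).2.trans
        (Nat.mul_le_mul_left _ (hb1 _))) fun j => xe (φ j) ▸ hx' _
    exact ⟨j, j', ne, (Projectivization.mk_eq_mk_iff' _ _ _ _ _).2 ⟨l, hl.symm⟩⟩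
  obtain ⟨j, j', ne, l, hl⟩ := (cmp L cv.ff _ (y0 (ψ 0))).2 (fun j => z' (ψ j)) fun j => by
    refine ⟨fun H d e hH h0 => ?_, hb2 _⟩
    obtain ⟨l, hl⟩ := (Projectivization.mk_eq_mk_iff' _ _ _ _ _).1 (eq j).symm
    rw [← hl, a2_scale hH, rel _ H d e hH h0, mul_zero]
  refine ne (hψ (inj (_root_.funext fun c' => ?_)))
  exact a2_uni cv.ff (a2_smul (hl ▸ hz' (ψ j) c')) (hz' (ψ j') c')

end Pool.Agent.MP_c69980_ag.H43
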